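import Mathlib

/-!
# All additive gaps between the fully active and the usual cop number

For all `0 < k < c` there is a finite connected graph `G` with `cop G = c` and `acop G = c + k`.

Start from a bipartite graph `A` without `4`-cycles (the incidence graph of a net with `c` points
on every line and one extra hub vertex for every class of points); `c` cops win both games on `A`
and fewer than `c` cops lose both.  Adding twins one at a time does not change the usual cop number
and raises the fully active cop number by at most one each time; when every vertex has `2c` copies,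
the fully active cop number is at least `2c`.
-/

namespace Pool.Agent.Results.MP_671a46_co.AllAdditiveGaps

open SimpleGraph

/-! ### The games -/

section Defs

variable {V : Type*}

/-- The list of the first `t` positions of the robber. -/
def hist (r : ℕ → V) (t : ℕ) : List V := (List.range t).map r

/-- `k` cops have a winning strategy in the game in which a player at `u` may go to `v` in his move
if and only if `S u v`.  A strategy `σ` of the cops tells their positions as a function of the list
of the positions of the robber so far: `σ []` is the initial placement, `r 0` is the initial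
position of the robber, `σ [r 0]` are the positions after the first move of the cops, `r 1` is the
position of the robber after his first move, and so on.  The strategy is winning if for every
legal play `r` of the robber all the moves of the cops are legal and at some time a cop and the
robber are on the same vertex, either after a move (or the placement) of the robber or after a
move of the cops. -/
def CopsWin (S : V → V → Prop) (k : ℕ) : Prop :=
  ∃ σ : List V → Fin k → V, ∀ r : ℕ → V, (∀ t, S (r t) (r (t + 1))) →
    (∀ t i, S (σ (hist r t) i) (σ (hist r (t + 1)) i)) ∧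
    ∃ t i, σ (hist r t) i = r t ∨ σ (hist r (t + 1)) i = r t

/-- The moves of the usual game: stay or go to an adjacent vertex. -/
def Passive (G : SimpleGraph V) (u v : V) : Prop := u = v ∨ G.Adj u v

/-- The moves of the fully active game: go to an adjacent vertex. -/
def Active (G : SimpleGraph V) (u v : V) : Prop := G.Adj u v

/-- The usual cop number. -/
noncomputable def cop (G : SimpleGraph V) : ℕ := sInf {k | CopsWin (Passive G) k}

/-- The fully active cop number. -/
noncomputable def acop (G : SimpleGraph V) : ℕ := sInf {k | CopsWin (Active G) k}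

end Defs

/-! ### Histories -/

section Hist

variable {V : Type*}

theorem hist_zero (r : ℕ → V) : hist r 0 = [] := rfl

theorem hist_cons (r : ℕ → V) (t : ℕ) : hist r (t + 1) = r 0 :: hist (fun n => r (n + 1)) t := by
  simp [hist, List.range_succ_eq_map, Function.comp_def]

theorem hist_concat (r : ℕ → V) (t : ℕ) : hist r (t + 1) = hist r t ++ [r t] := by
  simp [hist, List.range_succ]

theorem hist_length (r : ℕ → V) (t : ℕ) : (hist r t).length = t := by
  simp [hist]

theorem hist_map {W : Type*} (f : V → W) (r : ℕ → V) (t : ℕ) :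
    (hist r t).map f = hist (fun n => f (r n)) t := by
  simp [hist, Function.comp_def]

end Hist

/-! ### Evasion -/

section Evasion

variable {V : Type*}

/-- A criterion for the robber. -/
theorem not_copsWin {S : V → V → Prop} {k : ℕ} (serial : ∀ v, ∃ w, S v w)
    (Safe : (Fin k → V) → V → Prop) (h0 : ∀ C, ∃ r, Safe C r)
    (h1 : ∀ C r, Safe C r → ∀ i, C i ≠ r)
    (h2 : ∀ C r C', Safe C r → (∀ i, S (C i) (C' i)) →
      (∀ i, C' i ≠ r) ∧ ∃ r', S r r' ∧ Safe C' r') : ¬ CopsWin S k := by
  rintro ⟨σ, hσ⟩
  obtain ⟨r0, hr0⟩ := h0 (σ [])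
  have hnext : ∀ (C' : Fin k → V) (x : V), ∃ r', S x r' ∧ ((∃ r'', S x r'' ∧ Safe C' r'') →
      Safe C' r') := by
    intro C' x
    by_cases h : ∃ r'', S x r'' ∧ Safe C' r''
    · obtain ⟨r'', h3, h4⟩ := h
      exact ⟨r'', h3, fun _ => h4⟩
    · obtain ⟨w, hw⟩ := serial x
      exact ⟨w, hw, fun h' => absurd h' h⟩
  choose nx hnx1 hnx2 using hnext
  let st : ℕ → List V × V := fun t => Nat.rec ([], r0)
    (fun _ s => (s.1 ++ [s.2], nx (σ (s.1 ++ [s.2])) s.2)) t
  have st_succ : ∀ t, st (t + 1) =
    ((st t).1 ++ [(st t).2], nx (σ ((st t).1 ++ [(st t).2])) (st t).2) := fun t => rfl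
  let r : ℕ → V := fun t => (st t).2
  have hst : ∀ t, (st t).1 = hist r t := by
    intro t
    induction t with
    | zero => rfl
    | succ t ih =>
      rw [hist_concat, st_succ, ← ih]
  have hr : ∀ t, r (t + 1) = nx (σ (hist r (t + 1))) (r t) := by
    intro t
    change (st (t + 1)).2 = _
    rw [hist_concat, st_succ, ← hst t]
  have hlegal : ∀ t, S (r t) (r (t + 1)) := by
    intro t
    rw [hr]
    exact hnx1 _ _
  obtain ⟨h3, t, i, h4⟩ := hσ r hlegal
  have hsafe : ∀ t, Safe (σ (hist r t)) (r t) := by
    intro t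
    induction t with
    | zero => exact hr0
    | succ t ih =>
      obtain ⟨-, h5⟩ := h2 _ _ _ ih (h3 t)
      rw [hr]
      exact hnx2 _ _ h5
  rcases h4 with h4 | h4
  · exact h1 _ _ (hsafe t) i h4
  · exact (h2 _ _ _ (hsafe t) (h3 t)).1 i h4

end Evasion

/-! ### Strategies for the cops -/

section Strategy

variable {V : Type*}

/-- The positions (cops to move) from which the cops can force a capture. -/
inductive Win (S : V → V → Prop) {k : ℕ} : (Fin k → V) → V → Prop
  | caught (C : Fin k → V) (r : V) (i : Fin k) (h : C i = r) : Win S C r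
  | grab (C : Fin k → V) (r : V) (C' : Fin k → V) (h : ∀ i, S (C i) (C' i)) (i : Fin k)
      (h' : C' i = r) : Win S C r
  | move (C : Fin k → V) (r : V) (C' : Fin k → V) (h : ∀ i, S (C i) (C' i))
      (h' : ∀ r', S r r' → Win S C' r') : Win S C r

theorem Win.strategy {S : V → V → Prop} {k : ℕ} (serial : ∀ v, ∃ w, S v w) {C : Fin k → V} {r : V}
    (h : Win S C r) : ∃ σ : List V → Fin k → V, σ [] = C ∧ ∀ w : ℕ → V, w 0 = r →
      (∀ t, S (w t) (w (t + 1))) →
      (∀ t i, S (σ (hist w t) i) (σ (hist w (t + 1)) i)) ∧
      ∃ t i, σ (hist w t) i = w t ∨ σ (hist w (t + 1)) i = w t := by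
  choose f hf using serial
  induction h with
  | caught C r i h =>
    refine ⟨fun l i => f^[l.length] (C i), rfl, fun w hw hlegal => ⟨?_, 0, i, Or.inl ?_⟩⟩
    · intro t i
      simp only [hist_length]
      rw [Function.iterate_succ_apply']
      exact hf _
    · rw [hw]
      exact h
  | grab C r C' h i h' =>
    refine ⟨fun l i => if l.length = 0 then C i else f^[l.length - 1] (C' i), rfl,
      fun w hw hlegal => ⟨?_, 0, i, Or.inr ?_⟩⟩
    · intro t i
      simp only [hist_length]
      rcases Nat.eq_zero_or_pos t with rfl | ht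
      · simpa using h i
      · obtain ⟨n, rfl⟩ : ∃ n, t = n + 1 := ⟨t - 1, by omega⟩
        simp only [Nat.add_eq_zero_iff, one_ne_zero, and_false, if_false, Nat.add_sub_cancel]
        rw [Function.iterate_succ_apply']
        exact hf _
    · simp only [hist_length, hw]
      simpa using h'
  | move C r C' h h' ih =>
    choose σ' h1 h2 using ih
    classical
    let σ : List V → Fin k → V := fun l => match l with
      | [] => C
      | [_] => C'
      | _ :: r1 :: t => if h : S r r1 then σ' r1 h (r1 :: t) else C'
    refine ⟨σ, rfl, fun w hw hlegal => ?_⟩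
    have hw1 : S r (w 1) := by
      have := hlegal 0
      rwa [hw] at this
    have key : ∀ t, σ (hist w (t + 1)) = σ' (w 1) hw1 (hist (fun n => w (n + 1)) t) := by
      intro t
      rcases Nat.eq_zero_or_pos t with rfl | ht
      · rw [hist_cons, hist_zero, h1]
      · obtain ⟨n, rfl⟩ : ∃ n, t = n + 1 := ⟨t - 1, by omega⟩
        rw [hist_cons, hist_cons]
        simp only [σ, zero_add]
        rw [dif_pos hw1]
    obtain ⟨h3, t, i, h4⟩ := h2 (w 1) hw1 (fun n => w (n + 1)) rfl (fun t => hlegal (t + 1))
    refine ⟨?_, t + 1, i, ?_⟩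
    · intro t i
      rcases Nat.eq_zero_or_pos t with rfl | ht
      · rw [key 0, hist_zero, hist_zero, h1]
        exact h i
      · obtain ⟨n, rfl⟩ : ∃ n, t = n + 1 := ⟨t - 1, by omega⟩
        rw [key, key]
        exact h3 n i
    · rw [key, key]
      exact h4

theorem copsWin_of_win {S : V → V → Prop} {k : ℕ} (serial : ∀ v, ∃ w, S v w) (C : Fin k → V)
    (h : ∀ r, Win S C r) : CopsWin S k := by
  choose σ' h1 h2 using fun r => (h r).strategy serial
  let σ : List V → Fin k → V := fun l => match l with
    | [] => C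
    | r :: t => σ' r (r :: t)
  refine ⟨σ, fun r hr => ?_⟩
  have key : ∀ t, σ (hist r t) = σ' (r 0) (hist r t) := by
    intro t
    rcases Nat.eq_zero_or_pos t with rfl | ht
    · rw [hist_zero, h1]
    · obtain ⟨n, rfl⟩ : ∃ n, t = n + 1 := ⟨t - 1, by omega⟩
      rw [hist_cons]
  simp only [key]
  exact h2 (r 0) r rfl hr

end Strategy

/-! ### Adding one vertex in the fully active game -/

section AddVertex

/-- One more cop suffices after adding a twin `x`: he goes back and forth between `x` and a
neighbour of `x`. -/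
theorem active_step {V V' : Type*} {G : SimpleGraph V} {G' : SimpleGraph V'} (ι : V → V')
    (ρ : V' → V) (x w : V') (hι : ∀ u v, G.Adj u v → G'.Adj (ι u) (ι v))
    (hρ : ∀ u v, G'.Adj u v → G.Adj (ρ u) (ρ v)) (hx : ∀ v, v = x ∨ v = ι (ρ v))
    (hw : G'.Adj w x) {k : ℕ} (h : CopsWin (Active G) k) : CopsWin (Active G') (k + 1) := by
  obtain ⟨σ, hσ⟩ := h
  refine ⟨fun l => Fin.cons (if l.length % 2 = 0 then w else x) (fun i => ι (σ (l.map ρ) i)),
    fun r hr => ⟨?_, ?_⟩⟩
  · intro t i
    obtain ⟨h1, -⟩ := hσ (fun n => ρ (r n)) (fun t => hρ _ _ (hr t))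
    refine Fin.cases ?_ (fun i => ?_) i
    · simp only [Fin.cons_zero, hist_length]
      rcases Nat.mod_two_eq_zero_or_one t with h2 | h2
      · rw [if_pos h2, if_neg (by omega)]
        exact hw
      · rw [if_neg (by omega), if_pos (by omega)]
        exact hw.symm
    · simp only [Fin.cons_succ, hist_map]
      exact hι _ _ (h1 t i)
  · by_cases hT : ∃ T, r T = x
    · obtain ⟨T, hT⟩ := hT
      refine ⟨T, 0, ?_⟩
      simp only [Fin.cons_zero, hist_length]
      rcases Nat.mod_two_eq_zero_or_one T with h2 | h2
      · right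
        rw [if_neg (by omega), hT]
      · left
        rw [if_neg (by omega), hT]
    · push Not at hT
      obtain ⟨-, t, i, h2⟩ := hσ (fun n => ρ (r n)) (fun t => hρ _ _ (hr t))
      refine ⟨t, i.succ, ?_⟩
      have h3 : r t = ι (ρ (r t)) := (hx (r t)).resolve_left (hT t)
      simp only [Fin.cons_succ, hist_map]
      rcases h2 with h2 | h2
      · left
        rw [h2]
        exact h3.symm
      · right
        rw [h2]
        exact h3.symm

/-- Sufficiently many cops win the fully active game. -/
theorem active_card {V : Type*} [Fintype V] {G : SimpleGraph V} (serial : ∀ v, ∃ w, G.Adj v w) :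
    CopsWin (Active G) (Fintype.card V) := by
  apply copsWin_of_win serial (fun i => (Fintype.equivFin V).symm i)
  intro r
  exact Win.caught _ _ (Fintype.equivFin V r) (by simp)

theorem acop_mem {V : Type*} [Fintype V] {G : SimpleGraph V} (serial : ∀ v, ∃ w, G.Adj v w) :
    CopsWin (Active G) (acop G) :=
  Nat.sInf_mem (s := {k | CopsWin (Active G) k}) ⟨_, active_card serial⟩

theorem acop_step {V V' : Type*} [Fintype V] {G : SimpleGraph V} {G' : SimpleGraph V'}
    (serial : ∀ v, ∃ w, G.Adj v w) (ι : V → V')
    (ρ : V' → V) (x w : V') (hι : ∀ u v, G.Adj u v → G'.Adj (ι u) (ι v))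
    (hρ : ∀ u v, G'.Adj u v → G.Adj (ρ u) (ρ v)) (hx : ∀ v, v = x ∨ v = ι (ρ v))
    (hw : G'.Adj w x) : acop G' ≤ acop G + 1 :=
  Nat.sInf_le (active_step ι ρ x w hι hρ hx hw (acop_mem serial))

end AddVertex

/-! ### Bipartite base graphs without `4`-cycles -/

/-- A properly `2`-coloured graph without `4`-cycles and with minimum degree at least `c`. -/
structure Base (c : ℕ) {X : Type*} (A : SimpleGraph X) where
  /-- the colouring -/
  col : X → Bool
  col_adj : ∀ u v, A.Adj u v → col v = !col u
  /-- some neighbours -/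
  nbr : X → Fin c → X
  nbr_adj : ∀ v i, A.Adj v (nbr v i)
  nbr_inj : ∀ v, Function.Injective (nbr v)
  c4 : ∀ u u' v v', A.Adj u v → A.Adj u v' → A.Adj u' v → A.Adj u' v' → u ≠ u' → v = v'

section Base

variable {c : ℕ} {X : Type*} {A : SimpleGraph X} (B : Base c A)

include B

theorem Base.no_triangle {u v w : X} (h1 : A.Adj u v) (h2 : A.Adj u w) : ¬ A.Adj v w := by
  intro h3
  have e1 := B.col_adj _ _ h1
  have e2 := B.col_adj _ _ h2
  have e3 := B.col_adj _ _ h3
  rw [e1, e2] at e3
  simp at e3

/-- Fewer than `c` cops leave a neighbour of `v` unguarded. -/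
theorem Base.exists_free {ι : Type*} (O : Finset ι) (hO : O.card < c) (x : ι → X) (v : X)
    (hx : ∀ i ∈ O, x i ≠ v) : ∃ u, A.Adj v u ∧ ∀ i ∈ O, x i ≠ u ∧ ¬ A.Adj (x i) u := by
  by_contra hcon
  push Not at hcon
  have h1 : ∀ j : Fin c, ∃ i ∈ O, x i = B.nbr v j ∨ A.Adj (x i) (B.nbr v j) := by
    intro j
    obtain ⟨i, hi, h2⟩ := hcon (B.nbr v j) (B.nbr_adj v j)
    refine ⟨i, hi, ?_⟩
    by_cases h3 : x i = B.nbr v j
    · exact Or.inl h3
    · exact Or.inr (h2 h3)
  choose g hg1 hg2 using h1
  have hinj : Function.Injective g := by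
    intro j j' hjj
    apply B.nbr_inj v
    have h2 := hg2 j
    have h3 := hg2 j'
    rw [← hjj] at h3
    rcases h2 with h2 | h2
    · rcases h3 with h3 | h3
      · exact h2.symm.trans h3
      · rw [h2] at h3
        exact absurd h3 (B.no_triangle (B.nbr_adj v j) (B.nbr_adj v j'))
    · rcases h3 with h3 | h3
      · rw [h3] at h2
        exact absurd h2 (B.no_triangle (B.nbr_adj v j') (B.nbr_adj v j))
      · exact B.c4 v (x (g j)) _ _ (B.nbr_adj v j) (B.nbr_adj v j') h2 h3 (hx _ (hg1 j)).symm
  have h4 : (Finset.univ : Finset (Fin c)).card ≤ O.card :=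
    Finset.card_le_card_of_injOn g (fun j _ => hg1 j) (hinj.injOn)
  rw [Finset.card_univ, Fintype.card_fin] at h4
  omega

/-- Fewer than `c` vertices do not cover a colour class. -/
theorem Base.exists_start {ι : Type*} (O : Finset ι) (hO : O.card < c) (x : ι → X) (v : X) :
    ∃ j : Fin c, ∀ i ∈ O, x i ≠ B.nbr v j := by
  by_contra hcon
  push Not at hcon
  choose g hg1 hg2 using hcon
  have hinj : Function.Injective g := by
    intro j j' hjj
    apply B.nbr_inj v
    rw [← hg2 j, ← hg2 j', hjj]
  have h4 : (Finset.univ : Finset (Fin c)).card ≤ O.card :=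
    Finset.card_le_card_of_injOn g (fun j _ => hg1 j) (hinj.injOn)
  rw [Finset.card_univ, Fintype.card_fin] at h4
  omega

/-- Fewer than `c` cops lose the usual game on every blow-up. -/
theorem Base.passive_lower [Nonempty X] {T : Type*} (π : T → X) (hπ : Function.Surjective π)
    {k : ℕ} (hk : k < c) : ¬ CopsWin (Passive (A.comap π)) k := by
  apply not_copsWin (S := Passive (A.comap π)) (fun v => ⟨v, Or.inl rfl⟩)
    (fun C r => ∀ i, π (C i) ≠ π r ∧ ¬ A.Adj (π (C i)) (π r))
  · intro C
    obtain ⟨v0⟩ := (inferInstance : Nonempty X)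
    obtain ⟨j, hj⟩ := B.exists_start Finset.univ (by simpa using hk) (fun i => π (C i)) v0
    obtain ⟨u, -, hu⟩ := B.exists_free Finset.univ (by simpa using hk) (fun i => π (C i))
      (B.nbr v0 j) hj
    obtain ⟨r, hr⟩ := hπ u
    refine ⟨r, fun i => ?_⟩
    rw [hr]
    exact hu i (Finset.mem_univ _)
  · intro C r h i hi
    exact (h i).1 (by rw [hi])
  · intro C r C' h hC
    have h3 : ∀ i, π (C' i) ≠ π r := by
      intro i
      rcases hC i with h4 | h4
      · rw [← h4]
        exact (h i).1
      · intro h5
        apply (h i).2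
        rw [← h5]
        exact h4
    refine ⟨fun i hi => h3 i (by rw [hi]), ?_⟩
    obtain ⟨u, hu1, hu⟩ := B.exists_free Finset.univ (by simpa using hk) (fun i => π (C' i)) (π r)
      (fun i _ => h3 i)
    obtain ⟨r', hr'⟩ := hπ u
    refine ⟨r', Or.inr ?_, fun i => ?_⟩
    · change A.Adj (π r) (π r')
      rw [hr']
      exact hu1
    · rw [hr']
      exact hu i (Finset.mem_univ _)

/-- Fewer than `2c` cops lose the fully active game on the blow-up in which every vertex has at
least `2c` copies. -/
theorem Base.active_lower [Nonempty X] {k : ℕ} (hk : k < 2 * c) :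
    ¬ CopsWin (Active (A.comap (Prod.fst : X × Fin (2 * c) → X))) k := by
  classical
  have hc : 0 < c := by omega
  -- a free copy
  have hfree : ∀ (C : Fin k → X × Fin (2 * c)) (u : X), ∃ s, ∀ i, C i ≠ (u, s) := by
    intro C u
    by_contra hcon
    push Not at hcon
    choose g hg using hcon
    have hinj : Function.Injective g := by
      intro s s' hs
      have := (hg s).symm.trans ((congrArg C hs).trans (hg s'))
      exact congrArg Prod.snd this
    have := Fintype.card_le_of_injective g hinj
    rw [Fintype.card_fin, Fintype.card_fin] at this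
    omega
  apply not_copsWin (S := Active (A.comap (Prod.fst : X × Fin (2 * c) → X)))
    (fun v => ⟨(B.nbr v.1 ⟨0, hc⟩, v.2), B.nbr_adj v.1 ⟨0, hc⟩⟩)
    (fun C r => (Finset.univ.filter fun i => B.col (C i).1 ≠ B.col r.1).card < c ∧
      (∀ i, ¬ A.Adj (C i).1 r.1) ∧ ∀ i, C i ≠ r)
  · intro C
    -- the minority colour
    obtain ⟨b, hb⟩ : ∃ b, (Finset.univ.filter fun i => B.col (C i).1 = b).card < c := by
      by_contra hcon
      push Not at hcon
      have h1 := hcon true
      have h2 := hcon false
      have h3 : (Finset.univ.filter fun i => B.col (C i).1 = true).card +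
          (Finset.univ.filter fun i => B.col (C i).1 = false).card = k := by
        have := Finset.card_filter_add_card_filter_not (s := (Finset.univ : Finset (Fin k)))
          (fun i => B.col (C i).1 = true)
        simpa using this
      omega
    obtain ⟨v0⟩ := (inferInstance : Nonempty X)
    -- a vertex of colour `!b`
    obtain ⟨v1, hv1⟩ : ∃ v1, B.col v1 = !b := by
      by_cases h : B.col v0 = b
      · exact ⟨B.nbr v0 ⟨0, hc⟩, by rw [B.col_adj _ _ (B.nbr_adj v0 ⟨0, hc⟩), h]⟩
      · refine ⟨v0, ?_⟩
        cases hcol : B.col v0 <;> cases b <;> simp_all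
    obtain ⟨j, hj⟩ := B.exists_start _ hb (fun i => (C i).1) v1
    obtain ⟨u, hu1, hu⟩ := B.exists_free _ hb (fun i => (C i).1) (B.nbr v1 j) hj
    have hcolj : B.col (B.nbr v1 j) = b := by
      rw [B.col_adj _ _ (B.nbr_adj v1 j), hv1, Bool.not_not]
    have hcolu : B.col u = !b := by
      rw [B.col_adj _ _ hu1, hcolj]
    obtain ⟨s, hs⟩ := hfree C u
    refine ⟨(u, s), ?_, ?_, hs⟩
    · have : (Finset.univ.filter fun i => B.col (C i).1 ≠ B.col (u, s).1) =
          Finset.univ.filter fun i => B.col (C i).1 = b := by
        ext i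
        simp only [Finset.mem_filter, Finset.mem_univ, true_and, hcolu]
        cases B.col (C i).1 <;> cases b <;> simp
      rw [this]
      exact hb
    · intro i hi
      have h1 := B.col_adj _ _ hi
      have h2 : B.col (C i).1 = b := by
        change B.col u = _ at h1
        rw [hcolu] at h1
        cases hcol : B.col (C i).1 <;> cases b <;> simp_all
      exact (hu i (Finset.mem_filter.2 ⟨Finset.mem_univ _, h2⟩)).2 hi
  · intro C r h
    exact h.2.2
  · intro C r C' h hC
    obtain ⟨h1, h2, h3⟩ := h
    have hC' : ∀ i, B.col (C' i).1 = !B.col (C i).1 := fun i => B.col_adj _ _ (hC i)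
    have h4 : ∀ i, C' i ≠ r := by
      intro i hi
      apply h2 i
      rw [← hi]
      exact hC i
    refine ⟨h4, ?_⟩
    have h5 : ∀ i ∈ (Finset.univ.filter fun i => B.col (C i).1 ≠ B.col r.1), (C' i).1 ≠ r.1 := by
      intro i _ hi
      apply h2 i
      rw [← hi]
      exact hC i
    obtain ⟨u, hu1, hu⟩ := B.exists_free _ h1 (fun i => (C' i).1) r.1 h5
    have hcolu : B.col u = !B.col r.1 := B.col_adj _ _ hu1
    obtain ⟨s, hs⟩ := hfree C' u
    refine ⟨(u, s), hu1, ?_, ?_, hs⟩
    · have : (Finset.univ.filter fun i => B.col (C' i).1 ≠ B.col (u, s).1) =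
          Finset.univ.filter fun i => B.col (C i).1 ≠ B.col r.1 := by
        ext i
        simp only [Finset.mem_filter, Finset.mem_univ, true_and, hcolu, hC']
        cases B.col (C i).1 <;> cases B.col r.1 <;> simp
      rw [this]
      exact h1
    · intro i hi
      have h6 := B.col_adj _ _ hi
      have h7 : B.col (C i).1 ≠ B.col r.1 := by
        change B.col u = _ at h6
        rw [hcolu, hC'] at h6
        cases hcol : B.col (C i).1 <;> cases hcol' : B.col r.1 <;> simp_all
      exact (hu i (Finset.mem_filter.2 ⟨Finset.mem_univ _, h7⟩)).2 hi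

end Base

/-! ### The cops' side on blow-ups -/

section Blow

variable {c : ℕ} {X T : Type*} {A : SimpleGraph X} {π : T → X}

theorem comap_connected (hA : A.Connected) (hdeg : ∀ v, ∃ w, A.Adj v w)
    (hπ : Function.Surjective π) : (A.comap π).Connected := by
  have key : ∀ (a b : X) (_ : A.Walk a b) (s t : T), π s = a → π t = b →
      (A.comap π).Reachable s t := by
    intro a b p
    induction p with
    | nil =>
      intro s t hs ht
      obtain ⟨w, hw⟩ := hdeg (π s)
      obtain ⟨w', rfl⟩ := hπ w
      have h1 : (A.comap π).Adj s w' := hw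
      have h2 : (A.comap π).Adj t w' := by
        change A.Adj (π t) (π w')
        rw [ht, ← hs]
        exact hw
      exact h1.reachable.trans h2.symm.reachable
    | @cons a a' b h p ih =>
      intro s t hs ht
      obtain ⟨s', hs'⟩ := hπ a'
      have h1 : (A.comap π).Adj s s' := by
        change A.Adj (π s) (π s')
        rw [hs, hs']
        exact h
      exact h1.reachable.trans (ih s' t hs' ht)
  obtain ⟨v⟩ := hA.nonempty
  obtain ⟨t, -⟩ := hπ v
  have : Nonempty T := ⟨t⟩
  exact Connected.mk fun s t => key _ _ (hA.preconnected (π s) (π t)).some s t rfl rfl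

/-- If a cop shares the class of the robber, then another cop can capture the robber. -/
theorem shadow (hG : (A.comap π).Connected) {k : ℕ} {i j : Fin k} (hij : i ≠ j) (n : ℕ) :
    ∀ (C : Fin k → T) (r : T), π (C i) = π r → (A.comap π).dist (C j) r = n →
      Win (Passive (A.comap π)) C r := by
  classical
  induction n using Nat.strong_induction_on with
  | _ n ih =>
    intro C r hi hn
    obtain ⟨p, hp⟩ := hG.exists_walk_length_eq_dist (C j) r
    rw [hn] at hp
    -- the next vertex on the way to the robber
    obtain ⟨z, hz1, hz2⟩ : ∃ z, (Passive (A.comap π)) (C j) z ∧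
        (z = r ∨ (A.comap π).dist z r < n) := by
      cases hcase : p with
      | nil => exact ⟨_, Or.inl rfl, Or.inl rfl⟩
      | @cons _ z _ h q =>
        refine ⟨z, Or.inr h, Or.inr ?_⟩
        have h1 := dist_le q
        rw [hcase, Walk.length_cons] at hp
        omega
    have hlegal : ∀ l, Passive (A.comap π) (C l) (Function.update C j z l) := by
      intro l
      by_cases hl : l = j
      · rw [hl, Function.update_self]
        exact hz1
      · rw [Function.update_of_ne hl]
        exact Or.inl rfl
    rcases hz2 with hz2 | hz2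
    · exact Win.grab C r _ hlegal j (by rw [Function.update_self, hz2])
    · apply Win.move C r _ hlegal
      intro r' hr'
      rcases hr' with hr' | hr'
      · subst hr'
        apply ih _ hz2
        · rw [Function.update_of_ne hij]
          exact hi
        · rw [Function.update_self]
      · apply Win.grab _ r' (Function.update (Function.update C j z) i r') _ i
        · rw [Function.update_self]
        · intro l
          by_cases hl : l = i
          · rw [hl, Function.update_self, Function.update_of_ne hij]
            right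
            change A.Adj (π (C i)) (π r')
            rw [hi]
            exact hr'
          · rw [Function.update_of_ne hl]
            exact Or.inl rfl

/-- Hubs: every vertex is a hub, adjacent to a hub, or has exactly the neighbours `p i`, where
`p i` is adjacent to the `i`-th hub. -/
def Hubs (A : SimpleGraph X) (h : Fin c → X) : Prop :=
  ∀ x, (∃ i, x = h i) ∨ (∃ i, A.Adj (h i) x) ∨
    ∃ p : Fin c → X, (∀ i, A.Adj (h i) (p i)) ∧ (∀ i, A.Adj x (p i)) ∧
      ∀ y, A.Adj x y → ∃ i, y = p i

/-- `c` cops win the usual game on every blow-up, for `c ≥ 2`. -/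
theorem passive_upper (hc : 2 ≤ c) (h : Fin c → X) (hh : Hubs A h) (hA : A.Connected)
    (hdeg : ∀ v, ∃ w, A.Adj v w) (hπ : Function.Surjective π) :
    CopsWin (Passive (A.comap π)) c := by
  classical
  have hG := comap_connected hA hdeg hπ
  choose s hs using hπ
  have hother : ∀ i : Fin c, ∃ j, i ≠ j := by
    intro i
    by_cases hi : i.1 = 0
    · exact ⟨⟨1, by omega⟩, fun h => by rw [h] at hi; simp at hi⟩
    · exact ⟨⟨0, by omega⟩, fun h => hi (by rw [h])⟩
  apply copsWin_of_win (S := Passive (A.comap π)) (fun v => ⟨v, Or.inl rfl⟩) (fun i => s (h i))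
  intro r
  -- capture by an adjacent cop
  have hcatch : ∀ (C : Fin c → T) (r : T) (i : Fin c), A.Adj (π (C i)) (π r) →
      Win (Passive (A.comap π)) C r := by
    intro C r i hi
    apply Win.grab C r (Function.update C i r) _ i
    · rw [Function.update_self]
    · intro l
      by_cases hl : l = i
      · rw [hl, Function.update_self]
        exact Or.inr hi
      · rw [Function.update_of_ne hl]
        exact Or.inl rfl
  rcases hh (π r) with ⟨i, hi⟩ | ⟨i, hi⟩ | ⟨p, hp1, hp2, hp3⟩
  · obtain ⟨j, hj⟩ := hother i
    exact shadow hG hj _ _ _ (by rw [hs, hi]) rfl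
  · apply hcatch _ r i
    rw [hs]
    exact hi
  · apply Win.move _ r (fun i => s (p i))
    · intro i
      right
      change A.Adj (π (s (h i))) (π (s (p i)))
      rw [hs, hs]
      exact hp1 i
    · intro r' hr'
      rcases hr' with hr' | hr'
      · subst hr'
        apply hcatch _ r ⟨0, by omega⟩
        rw [hs]
        exact (hp2 _).symm
      · obtain ⟨i, hi⟩ := hp3 (π r') hr'
        obtain ⟨j, hj⟩ := hother i
        exact shadow hG hj _ _ _ (by rw [hs, hi]) rfl

/-- `c` cops win the fully active game on the base graph. -/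
theorem active_upper (h : Fin c → X) (hh : Hubs A h) (hdeg : ∀ v, ∃ w, A.Adj v w)
    (hπ : Function.Bijective π) : CopsWin (Active (A.comap π)) c := by
  classical
  obtain ⟨hinj, hsurj⟩ := hπ
  choose s hs using hsurj
  have hdeg' : ∀ v, ∃ w, (A.comap π).Adj v w := by
    intro v
    obtain ⟨w, hw⟩ := hdeg (π v)
    refine ⟨s w, ?_⟩
    change A.Adj (π v) (π (s w))
    rw [hs]
    exact hw
  apply copsWin_of_win hdeg' (fun i => s (h i))
  intro r
  rcases hh (π r) with ⟨i, hi⟩ | ⟨i, hi⟩ | ⟨p, hp1, hp2, hp3⟩
  · apply Win.caught _ _ i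
    apply hinj
    rw [hs, hi]
  · choose f hf using hdeg'
    apply Win.grab _ r (Function.update (fun l => f (s (h l))) i r) _ i
    · rw [Function.update_self]
    · intro l
      by_cases hl : l = i
      · rw [hl, Function.update_self]
        change A.Adj (π (s (h i))) (π r)
        rw [hs]
        exact hi
      · rw [Function.update_of_ne hl]
        exact hf _
  · apply Win.move _ r (fun i => s (p i))
    · intro i
      change A.Adj (π (s (h i))) (π (s (p i)))
      rw [hs, hs]
      exact hp1 i
    · intro r' hr'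
      obtain ⟨i, hi⟩ := hp3 (π r') hr'
      apply Win.caught _ _ i
      apply hinj
      rw [hs, hi]

end Blow

/-! ### The intermediate value argument -/

section Chain

variable {c : ℕ} {X : Type} [Fintype X] [DecidableEq X] {A : SimpleGraph X}

/-- The graph with the copies in `S`. -/
def blow (A : SimpleGraph X) {b : ℕ} (S : Finset (X × Fin b)) : SimpleGraph S :=
  A.comap (fun p => p.1.1)

theorem exists_gap (B : Base c A) (hA : A.Connected) (h : Fin c → X) (hh : Hubs A h) {k : ℕ}
    (hk0 : 0 < k) (hk : k < c) : ∃ S : Finset (X × Fin (2 * c)), (blow A S).Connected ∧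
      cop (blow A S) = c ∧ acop (blow A S) = c + k := by
  have hc : 0 < c := by omega
  have hne : Nonempty X := hA.nonempty
  have hdeg : ∀ v, ∃ w, A.Adj v w := fun v => ⟨_, B.nbr_adj v ⟨0, hc⟩⟩
  let z : Fin (2 * c) := ⟨0, by omega⟩
  let S0 : Finset (X × Fin (2 * c)) := Finset.univ.filter fun p => p.2 = z
  have hsurj : ∀ S, S0 ⊆ S → Function.Surjective (fun p : S => p.1.1) := by
    intro S hS x
    exact ⟨⟨(x, z), hS (by simp [S0])⟩, rfl⟩
  have hdeg' : ∀ S, S0 ⊆ S → ∀ v, ∃ w, (blow A S).Adj v w := by
    intro S hS v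
    obtain ⟨w, hw⟩ := hdeg v.1.1
    obtain ⟨w', rfl⟩ := hsurj S hS w
    exact ⟨w', hw⟩
  -- the base graph
  have hbase : acop (blow A S0) ≤ c := by
    apply Nat.sInf_le
    apply active_upper h hh hdeg
    refine ⟨?_, hsurj S0 (Finset.Subset.refl _)⟩
    intro p q hpq
    apply Subtype.ext
    have h1 := (Finset.mem_filter.1 p.2).2
    have h2 := (Finset.mem_filter.1 q.2).2
    exact Prod.ext hpq (h1.trans h2.symm)
  -- the full blow-up
  have hfull : 2 * c ≤ acop (blow A (Finset.univ : Finset (X × Fin (2 * c)))) := by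
    by_contra hcon
    push Not at hcon
    have h1 := acop_mem (hdeg' Finset.univ (Finset.subset_univ _))
    apply B.active_lower hcon
    -- transfer along the bijection of `univ` with the type
    obtain ⟨σ, hσ⟩ := h1
    refine ⟨fun l i => (σ (l.map fun p => ⟨p, Finset.mem_univ _⟩) i).1, fun r hr => ?_⟩
    have h2 := hσ (fun t => ⟨r t, Finset.mem_univ _⟩) hr
    simp only [hist_map]
    refine ⟨fun t i => h2.1 t i, ?_⟩
    obtain ⟨t, i, h3⟩ := h2.2
    refine ⟨t, i, ?_⟩
    rcases h3 with h3 | h3
    · left
      rw [h3]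
    · right
      rw [h3]
  -- one step
  have hstep : ∀ S, S0 ⊆ S → ∀ x, x ∉ S →
      acop (blow A (insert x S)) ≤ acop (blow A S) + 1 := by
    intro S hS x hx
    have hsub : S ⊆ insert x S := Finset.subset_insert _ _
    have hret : ∀ v : (insert x S : Finset _), ∃ u : S, u.1.1 = v.1.1 ∧ (v.1 = x ∨ v.1 = u.1) := by
      intro v
      by_cases hv : v.1 ∈ S
      · exact ⟨⟨v.1, hv⟩, rfl, Or.inr rfl⟩
      · obtain ⟨u, hu⟩ := hsurj S hS v.1.1
        refine ⟨u, hu, Or.inl ?_⟩
        exact (Finset.mem_insert.1 v.2).resolve_right hv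
    choose ρ hρ1 hρ2 using hret
    obtain ⟨w, hw⟩ := hdeg x.1
    obtain ⟨w', hw'⟩ := hsurj (insert x S) (hS.trans hsub) w
    apply acop_step (hdeg' S hS) (fun v => ⟨v.1, hsub v.2⟩) ρ
      ⟨x, Finset.mem_insert_self _ _⟩ w'
    · intro u v huv
      exact huv
    · intro u v huv
      change A.Adj (ρ u).1.1 (ρ v).1.1
      rw [hρ1, hρ1]
      exact huv
    · intro v
      rcases hρ2 v with h1 | h1
      · exact Or.inl (Subtype.ext h1)
      · exact Or.inr (Subtype.ext h1)
    · change A.Adj w'.1.1 x.1
      have : w'.1.1 = w := hw'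
      rw [this]
      exact hw.symm
  -- a smallest set of copies for which the fully active cop number is at least `c + k`
  let F : Finset (Finset (X × Fin (2 * c))) :=
    Finset.univ.filter fun S => S0 ⊆ S ∧ c + k ≤ acop (blow A S)
  have hF : F.Nonempty := ⟨Finset.univ, Finset.mem_filter.2 ⟨Finset.mem_univ _,
    Finset.subset_univ _, by omega⟩⟩
  obtain ⟨S, hSF, hmin⟩ := F.exists_min_image Finset.card hF
  obtain ⟨-, hS0, hSk⟩ := Finset.mem_filter.1 hSF
  have hne' : S ≠ S0 := by
    rintro rfl
    omega
  obtain ⟨x, hxS, hxS0⟩ : ∃ x ∈ S, x ∉ S0 := by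
    by_contra hcon
    push Not at hcon
    exact hne' (Finset.Subset.antisymm hcon hS0)
  have herase : S0 ⊆ S.erase x := fun y hy =>
    Finset.mem_erase.2 ⟨fun h => hxS0 (h ▸ hy), hS0 hy⟩
  have hlt : acop (blow A (S.erase x)) < c + k := by
    by_contra hcon
    push Not at hcon
    have h1 := hmin (S.erase x) (Finset.mem_filter.2 ⟨Finset.mem_univ _, herase, hcon⟩)
    have h2 := Finset.card_erase_lt_of_mem hxS
    omega
  have hle := hstep (S.erase x) herase x (Finset.notMem_erase _ _)
  rw [Finset.insert_erase hxS] at hle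
  refine ⟨S, comap_connected hA hdeg (hsurj S hS0), ?_, by omega⟩
  apply le_antisymm
  · exact Nat.sInf_le (passive_upper (by omega) h hh hA hdeg (hsurj S hS0))
  · by_contra hcon
    push Not at hcon
    have hmem : CopsWin (Passive (blow A S)) (cop (blow A S)) :=
      Nat.sInf_mem (s := {k | CopsWin (Passive (blow A S)) k})
        ⟨c, passive_upper (by omega) h hh hA hdeg (hsurj S hS0)⟩
    exact B.passive_lower _ (hsurj S hS0) hcon hmem

end Chain

/-! ### The net -/

section Net

variable (c q : ℕ)

/-- Blocks: the hubs and the lines. -/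
abbrev Block : Type := Fin c ⊕ (ZMod q × ZMod q)

/-- Points. -/
abbrev Point : Type := Fin c × ZMod q

/-- Incidence: the `i`-th hub is incident with the points of the `i`-th column, the line `(m, b)`
with the points on `y = m x + b`. -/
def Inc : Block c q → Point c q → Prop
  | Sum.inl i, p => p.1 = i
  | Sum.inr l, p => p.2 = l.1 * (p.1.1 : ZMod q) + l.2

/-- The incidence graph. -/
def net : SimpleGraph (Block c q ⊕ Point c q) where
  Adj x y := match x, y with
    | Sum.inl a, Sum.inr p => Inc c q a p
    | Sum.inr p, Sum.inl a => Inc c q a p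
    | _, _ => False
  symm := ⟨by
    rintro (a | p) (b | p') h
    · exact h
    · exact h
    · exact h
    · exact h⟩
  loopless := ⟨by
    rintro (a | p) h
    · exact h
    · exact h⟩

variable {c q}

theorem cast_inj (hcq : c ≤ q) {i j : Fin c} (h : (i.1 : ZMod q) = (j.1 : ZMod q)) : i = j := by
  rw [ZMod.natCast_eq_natCast_iff'] at h
  rw [Nat.mod_eq_of_lt (by omega), Nat.mod_eq_of_lt (by omega)] at h
  exact Fin.ext h

theorem inc_c4 [Fact q.Prime] (hcq : c ≤ q) {a a' : Block c q} {p p' : Point c q}
    (h1 : Inc c q a p) (h2 : Inc c q a p') (h3 : Inc c q a' p) (h4 : Inc c q a' p') :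
    a = a' ∨ p = p' := by
  rcases a with i | ⟨m, b⟩
  · rcases a' with i' | ⟨m', b'⟩
    · left
      change p.1 = i at h1
      change p.1 = i' at h3
      rw [← h1, ← h3]
    · right
      change p.1 = i at h1
      change p'.1 = i at h2
      change p.2 = m' * _ + b' at h3
      change p'.2 = m' * _ + b' at h4
      have h5 : p.1 = p'.1 := h1.trans h2.symm
      exact Prod.ext h5 (by rw [h3, h4, h5])
  · rcases a' with i' | ⟨m', b'⟩
    · right
      change p.2 = m * _ + b at h1
      change p'.2 = m * _ + b at h2
      change p.1 = i' at h3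
      change p'.1 = i' at h4
      have h5 : p.1 = p'.1 := h3.trans h4.symm
      exact Prod.ext h5 (by rw [h1, h2, h5])
    · change p.2 = m * _ + b at h1
      change p'.2 = m * _ + b at h2
      change p.2 = m' * _ + b' at h3
      change p'.2 = m' * _ + b' at h4
      by_cases h5 : p.1 = p'.1
      · right
        exact Prod.ext h5 (by rw [h1, h2, h5])
      · left
        have h6 : ((p.1.1 : ZMod q) - (p'.1.1 : ZMod q)) ≠ 0 := by
          intro h7
          exact h5 (cast_inj hcq (sub_eq_zero.1 h7))
        have h7 : (m - m') * ((p.1.1 : ZMod q) - (p'.1.1 : ZMod q)) = 0 := by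
          linear_combination h3 - h1 - h4 + h2
        have h8 : m = m' := sub_eq_zero.1 ((mul_eq_zero.1 h7).resolve_right h6)
        have h9 : b = b' := by
          rw [h8] at h1
          linear_combination h3 - h1
        rw [h8, h9]

/-- The incidence graph is a base graph. -/
noncomputable def netBase [Fact q.Prime] (hcq : c ≤ q) : Base c (net c q) where
  col := fun x => match x with
    | Sum.inl _ => true
    | Sum.inr _ => false
  col_adj := by
    rintro (a | p) (b | p') h
    · exact h.elim
    · rfl
    · rfl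
    · exact h.elim
  nbr := fun x j => match x with
    | Sum.inl (Sum.inl i) => Sum.inr (i, (j.1 : ZMod q))
    | Sum.inl (Sum.inr l) => Sum.inr (j, l.1 * (j.1 : ZMod q) + l.2)
    | Sum.inr p => Sum.inl (Sum.inr ((j.1 : ZMod q), p.2 - (j.1 : ZMod q) * (p.1.1 : ZMod q)))
  nbr_adj := by
    rintro ((i | l) | p) j
    · rfl
    · rfl
    · change p.2 = (j.1 : ZMod q) * (p.1.1 : ZMod q) + (p.2 - (j.1 : ZMod q) * (p.1.1 : ZMod q))
      ring
  nbr_inj := by
    rintro ((i | l) | p) j j' h
    · have := congrArg Prod.snd (Sum.inr_injective h)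
      exact cast_inj hcq this
    · exact congrArg Prod.fst (Sum.inr_injective h)
    · have := congrArg Prod.fst (Sum.inr_injective (Sum.inl_injective h))
      exact cast_inj hcq this
  c4 := by
    rintro (a | p) (a' | p') (b | r) (b' | r') h1 h2 h3 h4 hne
    all_goals first
      | exact h1.elim
      | exact h2.elim
      | exact h3.elim
      | exact h4.elim
      | skip
    · rcases inc_c4 hcq h1 h2 h3 h4 with h | h
      · exact absurd (congrArg Sum.inl h) hne
      · rw [h]
    · rcases inc_c4 hcq h1 h3 h2 h4 with h | h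
      · rw [h]
      · exact absurd (congrArg Sum.inr h) hne

theorem net_hubs : Hubs (net c q) (fun i : Fin c => Sum.inl (Sum.inl i)) := by
  rintro ((i | l) | p)
  · exact Or.inl ⟨i, rfl⟩
  · refine Or.inr (Or.inr ⟨fun j => Sum.inr (j, l.1 * (j.1 : ZMod q) + l.2), fun j => rfl,
      fun j => rfl, ?_⟩)
    rintro (a | p) h
    · exact h.elim
    · refine ⟨p.1, ?_⟩
      have h' : p.2 = l.1 * (p.1.1 : ZMod q) + l.2 := h
      exact congrArg Sum.inr (Prod.ext rfl h')
  · exact Or.inr (Or.inl ⟨p.1, rfl⟩)

theorem net_connected [Fact q.Prime] (hc : 0 < c) (hcq : c ≤ q) : (net c q).Connected := by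
  let p0 : Point c q := (⟨0, hc⟩, 0)
  have hcommon : ∀ p : Point c q, ∃ a : Block c q, Inc c q a p0 ∧ Inc c q a p := by
    intro p
    by_cases h : p.1 = p0.1
    · exact ⟨Sum.inl p0.1, rfl, h⟩
    · have h6 : ((p.1.1 : ZMod q) - (p0.1.1 : ZMod q)) ≠ 0 := by
        intro h7
        exact h (cast_inj hcq (sub_eq_zero.1 h7))
      let m : ZMod q := (p.2 - p0.2) / ((p.1.1 : ZMod q) - (p0.1.1 : ZMod q))
      have hm : m * ((p.1.1 : ZMod q) - (p0.1.1 : ZMod q)) = p.2 - p0.2 := div_mul_cancel₀ _ h6
      refine ⟨Sum.inr (m, p0.2 - m * (p0.1.1 : ZMod q)), ?_, ?_⟩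
      · change p0.2 = m * (p0.1.1 : ZMod q) + (p0.2 - m * (p0.1.1 : ZMod q))
        ring
      · change p.2 = m * (p.1.1 : ZMod q) + (p0.2 - m * (p0.1.1 : ZMod q))
        linear_combination -hm
  have hpoint : ∀ p : Point c q, (net c q).Reachable (Sum.inr p0) (Sum.inr p) := by
    intro p
    obtain ⟨a, h1, h2⟩ := hcommon p
    have h3 : (net c q).Adj (Sum.inr p0) (Sum.inl a) := h1
    have h4 : (net c q).Adj (Sum.inl a) (Sum.inr p) := h2
    exact h3.reachable.trans h4.reachable
  have hr : ∀ x, (net c q).Reachable (Sum.inr p0) x := by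
    rintro ((i | l) | p)
    · have h3 : (net c q).Adj (Sum.inr (i, 0)) (Sum.inl (Sum.inl i)) := rfl
      exact (hpoint _).trans h3.reachable
    · have h3 : (net c q).Adj (Sum.inr (⟨0, hc⟩, l.1 * ((0 : ℕ) : ZMod q) + l.2))
        (Sum.inl (Sum.inr l)) := rfl
      exact (hpoint _).trans h3.reachable
    · exact hpoint p
  have : Nonempty (Block c q ⊕ Point c q) := ⟨Sum.inr p0⟩
  exact Connected.mk fun x y => (hr x).symm.trans (hr y)

end Net

/-- For all positive integers `k < c` there is a finite connected graph `G` with at least one edge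
such that `cop G = c` and `acop G = c + k`. -/
theorem result : ∀ c k : ℕ, 0 < k → k < c → ∃ (V : Type) (_ : Fintype V) (G : SimpleGraph V),
    G.Connected ∧ (∃ u v, G.Adj u v) ∧ cop G = c ∧ acop G = c + k := by
  intro c k hk0 hk
  obtain ⟨q, hcq, hq⟩ := Nat.exists_infinite_primes c
  have : Fact q.Prime := ⟨hq⟩
  have : NeZero q := ⟨hq.ne_zero⟩
  classical
  obtain ⟨S, h1, h2, h3⟩ := exists_gap (netBase hcq) (net_connected (by omega) hcq) _ net_hubs
    hk0 hk
  refine ⟨_, inferInstance, _, h1, ?_, h2, h3⟩
  -- there is an edge, since fewer than `2` vertices are not possible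
  by_contra hcon
  push Not at hcon
  obtain ⟨v⟩ := h1.nonempty
  have hsub : ∀ u, u = v := by
    intro u
    obtain ⟨p⟩ := h1.preconnected u v
    cases p with
    | nil => rfl
    | cons h _ => exact absurd h (hcon _ _)
  have hone : CopsWin (Passive (blow (net c q) S)) 1 := by
    apply copsWin_of_win (S := Passive (blow (net c q) S)) (fun v => ⟨v, Or.inl rfl⟩) (fun _ => v)
    intro r
    exact Win.caught _ _ 0 (hsub r).symm
  have : cop (blow (net c q) S) ≤ 1 := Nat.sInf_le hone
  omega

end Pool.Agent.Results.MP_671a46_co.AllAdditiveGaps
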